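import Mathlib

set_option autoImplicit false

namespace Pool.Agent.H666R2.FB

open Finset

theorem grid_aux_lip (P : ℕ → ℝ) (c : ℝ) (h : ∀ K, |P (K + 1) - P K| ≤ c) (g n : ℕ) :
    |P (g + n) - P g| ≤ n * c := by
  induction n with
  | zero => simp
  | succ n ih =>
    have h1 := h (g + n)
    have h2 : P (g + (n + 1)) - P g = (P (g + n + 1) - P (g + n)) + (P (g + n) - P g) := by
      rw [← add_assoc]; ring
    rw [h2]
    calc _ ≤ |P (g + n + 1) - P (g + n)| + |P (g + n) - P g| := abs_add_le _ _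
      _ ≤ c + n * c := add_le_add h1 ih
      _ = _ := by push_cast; ring

/-- G2: from a mean bound for each `K` to a bound uniform in `K` -/
theorem grid (U : ℕ) : ∃ U' : ℕ, ∃ h0 : ℝ, ∀ L : ℝ, h0 ≤ L → ∀ {ι : Type} (S : Finset ι)
    (P M : ι → ℕ → ℝ) (K0 K2 : ℕ), L ^ U' ≤ K0 → (K2 : ℝ) ≤ Real.exp L →
    (∀ s ∈ S, ∀ K, |P s (K + 1) - P s K| ≤ 1) →
    (∀ s ∈ S, ∀ K, |M s (K + 1) - M s K| ≤ L ^ 2) →
    (∀ K, K0 ≤ K → K ≤ K2 → ∑ s ∈ S, |P s K - M s K| ≤ S.card * K / L ^ U') →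
    ∃ T ⊆ S, (T.card : ℝ) ≤ S.card / L ^ U ∧ ∀ s ∈ S, s ∉ T → ∀ K, K0 ≤ K → K ≤ K2 →
      |P s K - M s K| ≤ K / L ^ U := by
  classical
  refine ⟨3 * U + 7, 9, ?_⟩
  intro L hL ι S P M K0 K2 hK0 hK2 hP hM hsum
  have hL1 : (1 : ℝ) ≤ L := by linarith
  have hL0 : (0 : ℝ) < L := by linarith
  set V := U + 4 with hV
  have hLV : (0 : ℝ) < L ^ V := pow_pos hL0 _
  have hLU : (0 : ℝ) < L ^ U := pow_pos hL0 _
  have hK0V : L ^ V ≤ K0 := le_trans (pow_le_pow_right₀ hL1 (by omega)) hK0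
  have hK0pos : (1 : ℝ) ≤ K0 := le_trans (one_le_pow₀ hL1) hK0V
  -- step sizes
  let st : ℕ → ℕ := fun i => ⌊(2 : ℝ) ^ i / L ^ V⌋₊ + 1
  let g : ℕ → ℕ := fun K => max K0 (st (Nat.log 2 K) * (K / st (Nat.log 2 K)))
  have hst_pos : ∀ i, 0 < st i := fun i => Nat.succ_pos _
  have hst_gt : ∀ i, (2 : ℝ) ^ i / L ^ V < st i := by
    intro i
    have := Nat.lt_floor_add_one ((2 : ℝ) ^ i / L ^ V)
    simpa [st] using this
  have hst_le : ∀ K, K0 ≤ K → (st (Nat.log 2 K) : ℝ) ≤ 2 * K / L ^ V := by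
    intro K hK
    have hKr : (K0 : ℝ) ≤ K := by exact_mod_cast hK
    have hKne : K ≠ 0 := by
      rintro rfl
      have : (K0 : ℝ) ≤ 0 := by simpa using hKr
      linarith
    have h1 : ((2 : ℝ) ^ Nat.log 2 K) ≤ K := by exact_mod_cast Nat.pow_log_le_self 2 hKne
    have h2 : (⌊(2 : ℝ) ^ Nat.log 2 K / L ^ V⌋₊ : ℝ) ≤ (2 : ℝ) ^ Nat.log 2 K / L ^ V :=
      Nat.floor_le (by positivity)
    have h3 : (2 : ℝ) ^ Nat.log 2 K / L ^ V ≤ K / L ^ V := by
      apply div_le_div_of_nonneg_right h1 hLV.le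
    have h4 : (1 : ℝ) ≤ K / L ^ V := by
      rw [le_div_iff₀ hLV]; linarith
    have h5 : (st (Nat.log 2 K) : ℝ) = (⌊(2 : ℝ) ^ Nat.log 2 K / L ^ V⌋₊ : ℝ) + 1 := by
      simp [st]
    rw [h5]
    have h6 : 2 * (K : ℝ) / L ^ V = K / L ^ V + K / L ^ V := by ring
    rw [h6]; linarith
  have hg_ge : ∀ K, K0 ≤ g K := fun K => le_max_left _ _
  have hg_le : ∀ K, K0 ≤ K → g K ≤ K := fun K hK =>
    max_le hK (Nat.mul_div_le _ _)
  have hg_sub : ∀ K, K - g K ≤ st (Nat.log 2 K) := by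
    intro K
    have h1 : st (Nat.log 2 K) * (K / st (Nat.log 2 K)) ≤ g K := le_max_right _ _
    have h2 := Nat.div_add_mod K (st (Nat.log 2 K))
    have h3 := Nat.mod_lt K (hst_pos (Nat.log 2 K))
    omega
  set G : Finset ℕ := (Icc K0 K2).image g with hG
  have hGcard : (G.card : ℝ) ≤ L ^ (V + 2) := by
    have hsub : G ⊆ ((range (Nat.log 2 K2 + 1)) ×ˢ (range (⌊2 * L ^ V⌋₊ + 1))).image
        (fun p => max K0 (st p.1 * p.2)) := by
      intro y hy
      rw [hG, mem_image] at hy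
      obtain ⟨K, hK, rfl⟩ := hy
      rw [mem_Icc] at hK
      rw [mem_image]
      refine ⟨(Nat.log 2 K, K / st (Nat.log 2 K)), ?_, rfl⟩
      rw [mem_product, mem_range, mem_range]
      refine ⟨Nat.lt_succ_of_le (show Nat.log 2 K ≤ Nat.log 2 K2 from Nat.log_mono_right hK.2), Nat.lt_succ_of_le ?_⟩
      change K / st (Nat.log 2 K) ≤ _
      apply Nat.le_floor
      have h1 : ((K / st (Nat.log 2 K) : ℕ) : ℝ) ≤ (K : ℝ) / (st (Nat.log 2 K) : ℝ) :=
        Nat.cast_div_le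
      have h2 : (K : ℝ) ≤ 2 * 2 ^ (Nat.log 2 K) := by
        have := Nat.lt_pow_succ_log_self (b := 2) (by norm_num) K
        have h3 : (K : ℝ) < 2 ^ (Nat.log 2 K).succ := by exact_mod_cast this
        rw [Nat.succ_eq_add_one, pow_succ] at h3
        linarith
      have h3 := hst_gt (Nat.log 2 K)
      have hsp : (0 : ℝ) < st (Nat.log 2 K) := by exact_mod_cast hst_pos _
      refine h1.trans ?_
      rw [div_le_iff₀ hsp]
      rw [div_lt_iff₀ hLV] at h3
      nlinarith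
    have h1 := (card_le_card hsub).trans card_image_le
    rw [card_product, card_range, card_range] at h1
    have h2 : (G.card : ℝ) ≤ ((Nat.log 2 K2 : ℝ) + 1) * ((⌊2 * L ^ V⌋₊ : ℝ) + 1) := by
      exact_mod_cast h1
    have h3 : (Nat.log 2 K2 : ℝ) ≤ 2 * L := by
      rcases Nat.eq_zero_or_pos K2 with h0 | h0
      · rw [h0]; simp; linarith
      have h4 : ((2 : ℝ) ^ Nat.log 2 K2) ≤ K2 := by
        exact_mod_cast Nat.pow_log_le_self 2 h0.ne'
      have h5 : (2 : ℝ) ^ Nat.log 2 K2 ≤ Real.exp L := h4.trans hK2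
      have h6 := Real.log_le_log (by positivity) h5
      rw [Real.log_exp, Real.log_pow] at h6
      have h7 : (1 / 2 : ℝ) ≤ Real.log 2 := by linarith [Real.log_two_gt_d9]
      have h8 : (0 : ℝ) ≤ Nat.log 2 K2 := Nat.cast_nonneg _
      nlinarith
    have h4 : (⌊2 * L ^ V⌋₊ : ℝ) ≤ 2 * L ^ V := Nat.floor_le (by positivity)
    have h5 : (1 : ℝ) ≤ L ^ V := one_le_pow₀ hL1
    calc (G.card : ℝ) ≤ ((Nat.log 2 K2 : ℝ) + 1) * ((⌊2 * L ^ V⌋₊ : ℝ) + 1) := h2
      _ ≤ (3 * L) * (3 * L ^ V) := by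
        apply mul_le_mul (by linarith) (by linarith) (by positivity) (by positivity)
      _ = 9 * (L * L ^ V) := by ring
      _ ≤ L * (L * L ^ V) := by
        apply mul_le_mul_of_nonneg_right hL (by positivity)
      _ = L ^ (V + 2) := by ring
  -- exceptional set
  let bad : ℕ → Finset ι := fun y => S.filter (fun s => (y : ℝ) / (2 * L ^ U) < |P s y - M s y|)
  refine ⟨G.biUnion bad, ?_, ?_, ?_⟩
  · intro s hs
    rw [mem_biUnion] at hs
    obtain ⟨y, _, hy⟩ := hs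
    exact (mem_filter.mp hy).1
  · have hbad : ∀ y ∈ G, ((bad y).card : ℝ) ≤ 2 * L ^ U * S.card / L ^ (3 * U + 7) := by
      intro y hy
      rw [hG, mem_image] at hy
      obtain ⟨K, hK, rfl⟩ := hy
      rw [mem_Icc] at hK
      have hy1 := hg_ge K
      have hy2 := (hg_le K hK.1).trans hK.2
      have h1 := hsum (g K) hy1 hy2
      have hgpos : (0 : ℝ) < g K := by
        have : (K0 : ℝ) ≤ g K := by exact_mod_cast hy1
        linarith
      have h2 : ((bad (g K)).card : ℝ) * ((g K : ℝ) / (2 * L ^ U)) ≤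
          ∑ s ∈ S, |P s (g K) - M s (g K)| := by
        calc _ = ∑ s ∈ bad (g K), (g K : ℝ) / (2 * L ^ U) := by
              rw [sum_const, nsmul_eq_mul]
          _ ≤ ∑ s ∈ bad (g K), |P s (g K) - M s (g K)| := by
              apply sum_le_sum
              intro s hs
              exact (mem_filter.mp hs).2.le
          _ ≤ _ := by
              apply sum_le_sum_of_subset_of_nonneg (filter_subset _ _)
              intros; exact abs_nonneg _
      have h3 := h2.trans h1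
      have hLp : (0 : ℝ) < L ^ (3 * U + 7) := pow_pos hL0 _
      rw [le_div_iff₀ hLp] at h3 ⊢
      have h4 : ((bad (g K)).card : ℝ) * ((g K : ℝ) / (2 * L ^ U)) * L ^ (3 * U + 7) =
        (((bad (g K)).card : ℝ) * L ^ (3 * U + 7)) * g K / (2 * L ^ U) := by ring
      rw [h4, div_le_iff₀ (by positivity)] at h3
      have h5 : (((bad (g K)).card : ℝ) * L ^ (3 * U + 7)) * g K ≤ (2 * L ^ U * S.card) * g K := by
        calc _ ≤ _ := h3
          _ = _ := by ring
      exact le_of_mul_le_mul_right h5 hgpos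
    have h1 : ((G.biUnion bad).card : ℝ) ≤ ∑ y ∈ G, ((bad y).card : ℝ) := by
      exact_mod_cast card_biUnion_le
    have h2 : ∑ y ∈ G, ((bad y).card : ℝ) ≤ G.card * (2 * L ^ U * S.card / L ^ (3 * U + 7)) := by
      calc _ ≤ ∑ y ∈ G, (2 * L ^ U * S.card / L ^ (3 * U + 7)) := sum_le_sum hbad
        _ = _ := by rw [sum_const, nsmul_eq_mul]
    have h3 : (G.card : ℝ) * (2 * L ^ U * S.card / L ^ (3 * U + 7)) ≤
        L ^ (V + 2) * (2 * L ^ U * S.card / L ^ (3 * U + 7)) := by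
      apply mul_le_mul_of_nonneg_right hGcard (by positivity)
    refine h1.trans (h2.trans (h3.trans ?_))
    rw [le_div_iff₀ hLU]
    have h4 : L ^ (V + 2) * (2 * L ^ U * (S.card : ℝ) / L ^ (3 * U + 7)) * L ^ U =
        2 / L * S.card := by
      have e1 : L ^ (3 * U + 7) = L ^ (V + 2) * L ^ U * L ^ U * L := by
        rw [hV]; ring
      rw [e1]
      field_simp
    rw [h4]
    have h5 : 2 / L ≤ 1 := by rw [div_le_one hL0]; linarith
    have h6 : (0 : ℝ) ≤ S.card := Nat.cast_nonneg _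
    nlinarith
  · intro s hs hsT K hK1 hK2'
    have hKr : (K0 : ℝ) ≤ K := by exact_mod_cast hK1
    have hg1 := hg_le K hK1
    have hgr : (g K : ℝ) ≤ K := by exact_mod_cast hg1
    have hgG : g K ∈ G := by
      rw [hG]
      exact mem_image_of_mem _ (mem_Icc.mpr ⟨hK1, hK2'⟩)
    have h1 : |P s (g K) - M s (g K)| ≤ (g K : ℝ) / (2 * L ^ U) := by
      by_contra hcon
      push Not at hcon
      apply hsT
      rw [mem_biUnion]
      exact ⟨g K, hgG, mem_filter.mpr ⟨hs, hcon⟩⟩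
    obtain ⟨n, hn⟩ := Nat.exists_eq_add_of_le hg1
    have hnst : (n : ℝ) ≤ 2 * K / L ^ V := by
      have h2 := hg_sub K
      have h3 : n ≤ st (Nat.log 2 K) := by omega
      have h4 : (n : ℝ) ≤ st (Nat.log 2 K) := by exact_mod_cast h3
      exact h4.trans (hst_le K hK1)
    have h2 := grid_aux_lip (P s) 1 (hP s hs) (g K) n
    have h3 := grid_aux_lip (M s) (L ^ 2) (hM s hs) (g K) n
    rw [← hn] at h2 h3
    have h4 : |P s K - M s K| ≤ |P s K - P s (g K)| + |P s (g K) - M s (g K)| +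
        |M s K - M s (g K)| := by
      have : P s K - M s K = (P s K - P s (g K)) + (P s (g K) - M s (g K)) -
        (M s K - M s (g K)) := by ring
      rw [this]
      exact (abs_sub _ _).trans (by gcongr; exact abs_add_le _ _)
    have h5 : (g K : ℝ) / (2 * L ^ U) ≤ K / (2 * L ^ U) :=
      div_le_div_of_nonneg_right hgr (by positivity)
    have h6 : (n : ℝ) * 1 + n * L ^ 2 ≤ (2 * K / L ^ V) * (1 + L ^ 2) := by
      have : (n : ℝ) * 1 + n * L ^ 2 = n * (1 + L ^ 2) := by ring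
      rw [this]
      exact mul_le_mul_of_nonneg_right hnst (by positivity)
    have h7 : (2 * (K : ℝ) / L ^ V) * (1 + L ^ 2) ≤ K / (2 * L ^ U) := by
      have h8 : (2 * (K : ℝ) / L ^ V) * (1 + L ^ 2) = (K / (2 * L ^ U)) * (4 * (1 + L ^ 2) / L ^ 4) := by
        rw [hV, pow_add]
        field_simp
        ring
      rw [h8]
      have h9 : 4 * (1 + L ^ 2) / L ^ 4 ≤ 1 := by
        rw [div_le_one (by positivity)]
        have hL2 : (81 : ℝ) ≤ L ^ 2 := by nlinarith
        have : L ^ 4 = L ^ 2 * L ^ 2 := by ring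
        rw [this]; nlinarith
      have h10 : (0 : ℝ) ≤ K / (2 * L ^ U) := by positivity
      nlinarith
    have h11 : (K : ℝ) / L ^ U = K / (2 * L ^ U) + K / (2 * L ^ U) := by
      field_simp
      ring
    rw [h11]
    linarith

end Pool.Agent.H666R2.FB
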