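import Mathlib

/-!
Combinators for predicates of tuples that are definable by a first-order formula.
-/

set_option autoImplicit false

namespace Pool.Agent.H666R2

open FirstOrder FirstOrder.Language

universe u v w x y

/-- `t` is given by a term. -/
def TermFn (L : FirstOrder.Language.{u, v}) {M : Type w} [L.Structure M] {α : Type x}
    (t : (α → M) → M) : Prop :=
  ∃ τ : L.Term α, ∀ z : α → M, τ.realize z = t z

/-- `S` is given by a formula. -/
def DefPred (L : FirstOrder.Language.{u, v}) {M : Type w} [L.Structure M] {α : Type x}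
    (S : (α → M) → Prop) : Prop :=
  ∃ φ : L.Formula α, ∀ z : α → M, φ.Realize z ↔ S z

variable {L : FirstOrder.Language.{u, v}} {M : Type w} [L.Structure M] {α : Type x} {β : Type y}

theorem TermFn.var (a : α) : TermFn L (fun z : α → M => z a) :=
  ⟨Term.var a, fun _ => rfl⟩

theorem TermFn.func {n : ℕ} (f : L.Functions n) {t : Fin n → (α → M) → M}
    (ht : ∀ i, TermFn L (t i)) :
    TermFn L (fun z : α → M => Structure.funMap f (fun i => t i z)) := by
  choose τ hτ using ht
  refine ⟨Term.func f τ, fun z => ?_⟩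
  rw [Term.realize_func]
  congr 1
  funext i
  exact hτ i z

theorem TermFn.subst {t : (β → M) → M} (ht : TermFn L t) {s : β → (α → M) → M}
    (hs : ∀ b, TermFn L (s b)) : TermFn L (fun z : α → M => t (fun b => s b z)) := by
  obtain ⟨τ, hτ⟩ := ht
  choose σ hσ using hs
  refine ⟨τ.subst σ, fun z => ?_⟩
  rw [Term.realize_subst, hτ]
  congr 1
  funext b
  exact hσ b z

theorem TermFn.congr {t s : (α → M) → M} (ht : TermFn L t) (h : ∀ z, t z = s z) : TermFn L s := by
  obtain ⟨τ, hτ⟩ := ht
  exact ⟨τ, fun z => (hτ z).trans (h z)⟩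

theorem DefPred.congr {S T : (α → M) → Prop} (hS : DefPred L S) (h : ∀ z, S z ↔ T z) :
    DefPred L T := by
  obtain ⟨φ, hφ⟩ := hS
  exact ⟨φ, fun z => (hφ z).trans (h z)⟩

theorem DefPred.eq {t s : (α → M) → M} (ht : TermFn L t) (hs : TermFn L s) :
    DefPred L (fun z : α → M => t z = s z) := by
  obtain ⟨τ, hτ⟩ := ht
  obtain ⟨σ, hσ⟩ := hs
  refine ⟨Term.equal τ σ, fun z => ?_⟩
  rw [Formula.realize_equal, hτ, hσ]

theorem DefPred.rel {n : ℕ} (R : L.Relations n) {t : Fin n → (α → M) → M}
    (ht : ∀ i, TermFn L (t i)) :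
    DefPred L (fun z : α → M => Structure.RelMap R (fun i => t i z)) := by
  choose τ hτ using ht
  refine ⟨R.formula τ, fun z => ?_⟩
  rw [Formula.realize_rel]
  simp only [hτ]

theorem DefPred.not {S : (α → M) → Prop} (hS : DefPred L S) :
    DefPred L (fun z : α → M => ¬ S z) := by
  obtain ⟨φ, hφ⟩ := hS
  exact ⟨φ.not, fun z => by rw [Formula.realize_not, hφ]⟩

theorem DefPred.and {S T : (α → M) → Prop} (hS : DefPred L S) (hT : DefPred L T) :
    DefPred L (fun z : α → M => S z ∧ T z) := by
  obtain ⟨φ, hφ⟩ := hS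
  obtain ⟨ψ, hψ⟩ := hT
  exact ⟨φ ⊓ ψ, fun z => by rw [Formula.realize_inf, hφ, hψ]⟩

theorem DefPred.or {S T : (α → M) → Prop} (hS : DefPred L S) (hT : DefPred L T) :
    DefPred L (fun z : α → M => S z ∨ T z) := by
  obtain ⟨φ, hφ⟩ := hS
  obtain ⟨ψ, hψ⟩ := hT
  exact ⟨φ ⊔ ψ, fun z => by rw [Formula.realize_sup, hφ, hψ]⟩

theorem DefPred.imp {S T : (α → M) → Prop} (hS : DefPred L S) (hT : DefPred L T) :
    DefPred L (fun z : α → M => S z → T z) := by
  obtain ⟨φ, hφ⟩ := hS
  obtain ⟨ψ, hψ⟩ := hT
  exact ⟨φ.imp ψ, fun z => by rw [Formula.realize_imp, hφ, hψ]⟩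

theorem DefPred.iff {S T : (α → M) → Prop} (hS : DefPred L S) (hT : DefPred L T) :
    DefPred L (fun z : α → M => (S z ↔ T z)) := by
  obtain ⟨φ, hφ⟩ := hS
  obtain ⟨ψ, hψ⟩ := hT
  exact ⟨φ.iff ψ, fun z => by rw [Formula.realize_iff, hφ, hψ]⟩

theorem DefPred.true : DefPred L (fun _ : α → M => True) :=
  ⟨⊤, fun z => by simp⟩

theorem DefPred.false : DefPred L (fun _ : α → M => False) :=
  ⟨⊥, fun z => by simp [Formula.Realize]⟩

theorem DefPred.const (p : Prop) : DefPred L (fun _ : α → M => p) := by
  by_cases hp : p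
  · exact DefPred.true.congr fun _ => by simp [hp]
  · exact DefPred.false.congr fun _ => by simp [hp]

theorem DefPred.forallFin {ι : Type} [Finite ι] {S : ι → (α → M) → Prop}
    (hS : ∀ i, DefPred L (S i)) : DefPred L (fun z : α → M => ∀ i, S i z) := by
  choose φ hφ using hS
  refine ⟨Formula.iInf φ, fun z => ?_⟩
  rw [Formula.realize_iInf]
  exact forall_congr' fun i => hφ i z

theorem DefPred.existsFin {ι : Type} [Finite ι] {S : ι → (α → M) → Prop}
    (hS : ∀ i, DefPred L (S i)) : DefPred L (fun z : α → M => ∃ i, S i z) := by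
  choose φ hφ using hS
  refine ⟨Formula.iSup φ, fun z => ?_⟩
  rw [Formula.realize_iSup]
  exact exists_congr fun i => hφ i z

/-- Existential quantification over a finite tuple. -/
theorem DefPred.exTuple {γ : Type} [Finite γ] {S : (α → M) → (γ → M) → Prop}
    (hS : DefPred L (fun z : α ⊕ γ → M => S (fun a => z (Sum.inl a)) (fun c => z (Sum.inr c)))) :
    DefPred L (fun z : α → M => ∃ c, S z c) := by
  obtain ⟨φ, hφ⟩ := hS
  refine ⟨Formula.iExs γ φ, fun z => ?_⟩
  rw [Formula.realize_iExs]
  exact exists_congr fun c => by rw [hφ]; rfl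

theorem DefPred.allTuple {γ : Type} [Finite γ] {S : (α → M) → (γ → M) → Prop}
    (hS : DefPred L (fun z : α ⊕ γ → M => S (fun a => z (Sum.inl a)) (fun c => z (Sum.inr c)))) :
    DefPred L (fun z : α → M => ∀ c, S z c) := by
  obtain ⟨φ, hφ⟩ := hS
  refine ⟨Formula.iAlls γ φ, fun z => ?_⟩
  rw [Formula.realize_iAlls]
  exact forall_congr' fun c => by rw [hφ]; rfl

/-- Substitution of terms in a definable predicate. -/
theorem DefPred.subst {S : (β → M) → Prop} (hS : DefPred L S) {s : β → (α → M) → M}
    (hs : ∀ b, TermFn L (s b)) : DefPred L (fun z : α → M => S (fun b => s b z)) := by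
  obtain ⟨φ, hφ⟩ := hS
  choose σ hσ using hs
  refine ⟨BoundedFormula.subst φ σ, fun z => ?_⟩
  show Formula.Realize (BoundedFormula.subst φ σ) z ↔ S (fun b => s b z)
  rw [← hφ]
  unfold Formula.Realize
  rw [BoundedFormula.realize_subst]
  simp only [hσ]

/-- Existential quantification over one element. -/
theorem DefPred.ex {S : (α → M) → M → Prop}
    (hS : DefPred L (fun z : Option α → M => S (fun a => z (some a)) (z none))) :
    DefPred L (fun z : α → M => ∃ c, S z c) := by
  have h := DefPred.exTuple (L := L) (M := M) (α := α) (γ := Unit)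
    (S := fun z c => S z (c ())) (by
      have := hS.subst (α := α ⊕ Unit)
        (s := fun b z => match b with
          | some a => z (Sum.inl a)
          | none => z (Sum.inr ())) (by
            intro b
            cases b with
            | none => exact TermFn.var _
            | some a => exact TermFn.var _)
      exact this)
  refine h.congr fun z => ?_
  constructor
  · rintro ⟨c, hc⟩
    exact ⟨c (), hc⟩
  · rintro ⟨c, hc⟩
    exact ⟨fun _ => c, hc⟩

/-- Universal quantification over one element. -/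
theorem DefPred.all {S : (α → M) → M → Prop}
    (hS : DefPred L (fun z : Option α → M => S (fun a => z (some a)) (z none))) :
    DefPred L (fun z : α → M => ∀ c, S z c) := by
  have h := (DefPred.ex (L := L) (S := fun (z : α → M) c => ¬ S z c) hS.not).not
  refine h.congr fun z => ?_
  simp

end Pool.Agent.H666R2
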