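import Mathlib
import Pool.Agent.H666R2.DefPred

/-!
In a polynomial ring over a field the tuples generating the algebra form a definable set.
-/

set_option autoImplicit false

namespace Pool.Agent.H666R2.PolyGen

open FirstOrder FirstOrder.Language MvPolynomial

universe u

section General

variable {R : Type u} [CommRing R]

/-- the coded relation between `g` and `x` -/
def InS (w q a v e f g x : R) : Prop :=
  x ≠ 0 ∧ x ∣ q ∧ (w - 1) ∣ (x - 1) ∧ (g + e) ∣ f ∧ (x * a + 1) ∣ (v - g)

/-- certificates for membership in `B[z]` -/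
def Ext (B : R → Prop) (z h : R) : Prop :=
  B h ∨ ∃ w q a v e f y : R, ¬ IsUnit w ∧ InS w q a v e f h y ∧
    ∀ g x : R, InS w q a v e f g x →
      (B g ∨ ∃ g' x' : R, InS w q a v e f g' x' ∧ x = w * x' ∧ B (g - z * g'))

theorem ext_sound [IsDomain R] [WfDvdMonoid R] {B : R → Prop} {z : R} {A : Subring R}
    (hB : ∀ g, B g → g ∈ A) (hz : z ∈ A) {h : R} (hh : Ext B z h) : h ∈ A := by
  rcases hh with hh | ⟨w, q, a, v, e, f, y, hw, hy, hcl⟩
  · exact hB h hh
  · have key : ∀ x : R, ∀ g : R, InS w q a v e f g x → g ∈ A := by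
      intro x
      have wf : WellFounded (DvdNotUnit : R → R → Prop) := IsWellFounded.wf
      induction x using wf.induction with
      | _ x ih =>
        intro g hg
        rcases hcl g x hg with h1 | ⟨g', x', h1, h2, h3⟩
        · exact hB g h1
        · have h4 : g' ∈ A := by
            refine ih x' ⟨h1.1, w, hw, ?_⟩ g' h1
            rw [h2]; ring
          have h5 : g = (g - z * g') + z * g' := by ring
          rw [h5]
          exact A.add_mem (hB _ h3) (A.mul_mem hz h4)
    exact key y h hy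

/-- A chain leading to `h`. -/
def Chain (B : R → Prop) (z h : R) : Prop :=
  ∃ (N : ℕ) (g : ℕ → R), g N = h ∧ B (g 0) ∧ ∀ n < N, B (g (n + 1) - z * g n)

theorem Chain.mono {B B' : R → Prop} {z h : R} (hB : ∀ g, B g → B' g) (hc : Chain B z h) :
    Chain B' z h := by
  obtain ⟨N, g, h1, h2, h3⟩ := hc
  exact ⟨N, g, h1, hB _ h2, fun n hn => hB _ (h3 n hn)⟩

theorem chain_of_poly {A : Subring R} {z : R} (p : Polynomial A) :
    Chain (fun h => h ∈ A) z (Polynomial.eval₂ A.subtype z p) := by
  induction hn : p.natDegree using Nat.strong_induction_on generalizing p with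
  | _ n ih =>
    rcases Nat.eq_zero_or_pos p.natDegree with h0 | h0
    · rw [Polynomial.eq_C_of_natDegree_eq_zero h0]
      refine ⟨0, fun _ => Polynomial.eval₂ A.subtype z (Polynomial.C (p.coeff 0)), rfl, ?_, ?_⟩
      · simp
      · intro n hn; exact absurd hn (Nat.not_lt_zero n)
    · have hd : p.divX.natDegree < n := by
        rw [Polynomial.natDegree_divX_eq_natDegree_tsub_one, ← hn]
        omega
      obtain ⟨N, g, hg, hg0, hgs⟩ := ih _ hd p.divX rfl
      refine ⟨N + 1, fun k => if k ≤ N then g k else Polynomial.eval₂ A.subtype z p, ?_, ?_, ?_⟩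
      · simp
      · simpa using hg0
      · intro k hk
        rcases Nat.lt_or_ge k N with h1 | h1
        · have := hgs k h1
          simp only [show k + 1 ≤ N from h1, show k ≤ N from h1.le, if_true]
          exact this
        · have hkN : k = N := by omega
          subst hkN
          have h2 : Polynomial.eval₂ A.subtype z p =
              Polynomial.eval₂ A.subtype z p.divX * z + (p.coeff 0 : R) := by
            conv_lhs => rw [← Polynomial.divX_mul_X_add p]
            simp
          simp only [le_refl, if_true, show ¬ (k + 1 ≤ k) by omega, if_false]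
          rw [hg, h2]
          have h3 : Polynomial.eval₂ A.subtype z p.divX * z + (p.coeff 0 : R) -
              z * Polynomial.eval₂ A.subtype z p.divX = (p.coeff 0 : R) := by ring
          rw [h3]
          exact (p.coeff 0).2

end General

section Poly

variable {P : Type u} [Field P] {m : ℕ}

theorem not_isUnit_X (i : Fin m) : ¬ IsUnit (X i : MvPolynomial (Fin m) P) :=
  X_prime.not_isUnit

theorem sub_one_dvd_C {i : Fin m} {c : P} (h : (X i - 1 : MvPolynomial (Fin m) P) ∣ C c) :
    c = 0 := by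
  by_contra hc
  obtain ⟨b, _, hb⟩ := (dvd_C_iff_exists hc).1 h
  have h1 : (X i : MvPolynomial (Fin m) P) = C (b + 1) := by
    rw [C_add, ← hb]; simp
  have h2 := congrArg totalDegree h1
  rw [totalDegree_X, totalDegree_C] at h2
  exact one_ne_zero h2

theorem eq_pow_of_dvd {i : Fin m} {N : ℕ} {x : MvPolynomial (Fin m) P} (h1 : x ∣ X i ^ N)
    (h2 : (X i - 1) ∣ (x - 1)) : ∃ n ≤ N, x = X i ^ n := by
  obtain ⟨n, hn, ⟨c, hc⟩⟩ := (dvd_prime_pow X_prime N).1 h1
  refine ⟨n, hn, ?_⟩
  obtain ⟨d, hd, hd'⟩ := (isUnit_iff_eq_C_of_isReduced).1 (c⁻¹).isUnit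
  have hx : x = X i ^ n * C d := by
    rw [← hd', ← hc, mul_assoc, Units.mul_inv, mul_one]
  have h3 : (X i - 1 : MvPolynomial (Fin m) P) ∣ X i ^ n - 1 := by
    simpa using sub_dvd_pow_sub_pow (X i : MvPolynomial (Fin m) P) 1 n
  have h4 : (X i - 1 : MvPolynomial (Fin m) P) ∣ C (d - 1) := by
    have h5 : (C (d - 1) : MvPolynomial (Fin m) P) = (x - 1) - (X i ^ n - 1) * C d := by
      rw [hx, C_sub, C_1]; ring
    rw [h5]
    exact dvd_sub h2 (h3.mul_right _)
  have h6 := sub_one_dvd_C h4
  rw [sub_eq_zero] at h6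
  rw [hx, h6, C_1, mul_one]

theorem chain_ext (i : Fin m) {B : MvPolynomial (Fin m) P → Prop} {z h : MvPolynomial (Fin m) P}
    (hc : Chain B z h) : Ext B z h := by
  classical
  obtain ⟨N, g, rfl, hg0, hgs⟩ := hc
  right
  set w : MvPolynomial (Fin m) P := X i with hw
  have hw0 : w ≠ 0 := X_ne_zero i
  set D : ℕ := 1 + ∑ n ∈ Finset.range (N + 1), (g n).totalDegree with hD
  set e : MvPolynomial (Fin m) P := w ^ D with he
  have hge : ∀ n ≤ N, g n + e ≠ 0 := by
    intro n hn h0
    have h1 : g n = - e := eq_neg_of_add_eq_zero_left h0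
    have h2 : (g n).totalDegree = D := by
      rw [h1, totalDegree_neg, he, hw, totalDegree_X_pow]
    have h3 : (g n).totalDegree ≤ ∑ n ∈ Finset.range (N + 1), (g n).totalDegree :=
      Finset.single_le_sum (f := fun n => (g n).totalDegree) (fun _ _ => Nat.zero_le _)
        (Finset.mem_range.2 (by omega))
    omega
  set f : MvPolynomial (Fin m) P := ∏ n ∈ Finset.range (N + 1), (g n + e) with hf
  have hf0 : f ≠ 0 := Finset.prod_ne_zero_iff.2 fun n hn =>
    hge n (by have := Finset.mem_range.1 hn; omega)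
  have hgf : ∀ n ≤ N, g n + e ∣ f := fun n hn =>
    Finset.dvd_prod_of_mem (fun n => g n + e) (Finset.mem_range.2 (by omega))
  set K : ℕ := f.totalDegree + 1 with hK
  set a0 : MvPolynomial (Fin m) P := w * ∏ j ∈ Finset.range N, (w ^ (j + 1) - 1) with ha0
  set a : MvPolynomial (Fin m) P := a0 ^ K with ha
  have hwj : ∀ j : ℕ, w ^ (j + 1) - 1 ≠ 0 := by
    intro j h0
    have h1 : w ^ (j + 1) = 1 := sub_eq_zero.1 h0
    have h2 : IsUnit w := IsUnit.of_mul_eq_one (w ^ j) (by rw [← pow_succ', h1])
    exact not_isUnit_X i h2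
  have ha00 : a0 ≠ 0 := mul_ne_zero hw0 (Finset.prod_ne_zero_iff.2 fun j _ => hwj j)
  have haa : a ≠ 0 := pow_ne_zero _ ha00
  have hadeg : K ≤ a.totalDegree := by
    have h1 : w ^ K ∣ a := pow_dvd_pow_of_dvd (Dvd.intro _ rfl) K
    have h2 := totalDegree_le_of_dvd_of_isDomain h1 haa
    rwa [hw, totalDegree_X_pow] at h2
  have hdvda : ∀ j, 0 < j → j ≤ N → (w ^ j - 1) ∣ a := by
    intro j hj hjN
    have h1 : (w ^ j - 1) ∣ a0 := by
      rw [ha0]
      apply Dvd.dvd.mul_left
      have := Finset.dvd_prod_of_mem (fun j => w ^ (j + 1) - 1)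
        (Finset.mem_range.2 (show j - 1 < N by omega))
      simpa [show j - 1 + 1 = j by omega] using this
    exact h1.trans (dvd_pow_self a0 (by omega))
  -- the moduli
  have hmoddeg : ∀ n, K ≤ (w ^ n * a + 1).totalDegree := by
    intro n
    have h1 : a ∣ w ^ n * a := Dvd.intro_left _ rfl
    have h2 := totalDegree_le_of_dvd_of_isDomain h1 (mul_ne_zero (pow_ne_zero _ hw0) haa)
    have h3 : w ^ n * a = (w ^ n * a + 1) - 1 := by ring
    have h4 := totalDegree_sub (w ^ n * a + 1) 1
    rw [← h3, totalDegree_one, max_eq_left (Nat.zero_le _)] at h4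
    omega
  have hcop : Pairwise (Function.onFun IsCoprime
      (fun n : Fin (N + 1) => Ideal.span {w ^ (n : ℕ) * a + 1})) := by
    have key : ∀ n k : ℕ, n < k → k ≤ N → IsCoprime (w ^ n * a + 1) (w ^ k * a + 1) := by
      intro n k hnk hkN
      obtain ⟨c, hc⟩ := hdvda (k - n) (by omega) (by omega)
      refine ⟨1 - w ^ n * c * w ^ (k - n), w ^ n * c, ?_⟩
      have h1 : w ^ k = w ^ n * w ^ (k - n) := by rw [← pow_add]; congr 1; omega
      rw [h1]
      linear_combination (w ^ n) * hc
    intro n k hnk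
    show IsCoprime _ _
    rw [Ideal.isCoprime_span_singleton_iff]
    rcases lt_or_gt_of_ne (fun h => hnk (Fin.ext h) : (n : ℕ) ≠ (k : ℕ)) with h1 | h1
    · exact key n k h1 (by omega)
    · exact (key k n h1 (by omega)).symm
  obtain ⟨v, hv⟩ := Ideal.exists_forall_sub_mem_ideal hcop (fun n : Fin (N + 1) => g n)
  have hv' : ∀ n ≤ N, (w ^ n * a + 1) ∣ (v - g n) := by
    intro n hn
    have := hv ⟨n, by omega⟩
    exact Ideal.mem_span_singleton.1 this
  have hin : ∀ n ≤ N, InS w (w ^ N) a v e f (g n) (w ^ n) := by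
    intro n hn
    refine ⟨pow_ne_zero _ hw0, pow_dvd_pow _ hn, ?_, hgf n hn, hv' n hn⟩
    simpa using sub_dvd_pow_sub_pow w 1 n
  have hout : ∀ g' x, InS w (w ^ N) a v e f g' x → ∃ n ≤ N, x = w ^ n ∧ g' = g n := by
    rintro g' x ⟨_, h2, h3, h4, h5⟩
    obtain ⟨n, hn, rfl⟩ := eq_pow_of_dvd h2 h3
    refine ⟨n, hn, rfl, ?_⟩
    by_contra hne
    have h6 : (w ^ n * a + 1) ∣ (g' - g n) := by
      have h7 : g' - g n = (v - g n) - (v - g') := by ring
      rw [h7]
      exact dvd_sub (hv' n hn) h5
    have h8 := totalDegree_le_of_dvd_of_isDomain h6 (sub_ne_zero.2 hne)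
    have h9 : (g' - g n).totalDegree ≤ f.totalDegree := by
      have h10 : g' - g n = (g' + e) - (g n + e) := by ring
      rw [h10]
      refine (totalDegree_sub _ _).trans (max_le ?_ ?_)
      · exact totalDegree_le_of_dvd_of_isDomain h4 hf0
      · exact totalDegree_le_of_dvd_of_isDomain (hgf n hn) hf0
    have h11 := hmoddeg n
    omega
  refine ⟨w, w ^ N, a, v, e, f, w ^ N, not_isUnit_X i, hin N le_rfl, ?_⟩
  intro g' x hx
  obtain ⟨n, hn, rfl, rfl⟩ := hout g' x hx
  cases n with
  | zero => exact Or.inl hg0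
  | succ n =>
    right
    refine ⟨g n, w ^ n, hin n (by omega), ?_, hgs n (by omega)⟩
    rw [pow_succ']

/-- iterated certificates -/
def ExtL : List (MvPolynomial (Fin m) P) → MvPolynomial (Fin m) P → Prop
  | [], h => h = 0 ∨ IsUnit h
  | z :: l, h => Ext (ExtL l) z h

theorem extL_iff (l : List (MvPolynomial (Fin m) P)) (hl : l = [] ∨ 0 < m)
    (h : MvPolynomial (Fin m) P) : ExtL l h ↔ h ∈ Algebra.adjoin P {x | x ∈ l} := by
  induction l generalizing h with
  | nil =>
    have h0 : {x : MvPolynomial (Fin m) P | x ∈ ([] : List (MvPolynomial (Fin m) P))} = ∅ := by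
      ext x; simp
    rw [h0, Algebra.adjoin_empty, Algebra.mem_bot]
    constructor
    · rintro (rfl | hu)
      · exact ⟨0, map_zero _⟩
      · obtain ⟨r, _, hr⟩ := isUnit_iff_eq_C_of_isReduced.1 hu
        exact ⟨r, hr.symm⟩
    · rintro ⟨r, rfl⟩
      by_cases hr : r = 0
      · left; rw [hr, map_zero]
      · right; exact (IsUnit.mk0 r hr).map (algebraMap P (MvPolynomial (Fin m) P))
  | cons z l ih =>
    have hm : 0 < m := by
      rcases hl with hl | hl
      · cases hl
      · exact hl
    have ih' := ih (Or.inr hm)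
    have hset : {x : MvPolynomial (Fin m) P | x ∈ z :: l} = insert z {x | x ∈ l} := by
      ext x; simp
    rw [hset]
    set S : Set (MvPolynomial (Fin m) P) := {x | x ∈ l} with hS
    constructor
    · intro hh
      refine ext_sound (A := (Algebra.adjoin P (insert z S)).toSubring) ?_ ?_ hh
      · intro g hg
        exact Algebra.adjoin_mono (Set.subset_insert z S) ((ih' g).1 hg)
      · exact Algebra.subset_adjoin (Set.mem_insert z S)
    · intro hh
      apply chain_ext ⟨0, hm⟩
      have h1 : h ∈ Algebra.adjoin (Algebra.adjoin P S) {z} := by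
        have h2 : insert z S = S ∪ {z} := by rw [Set.union_singleton]
        rw [h2, Algebra.adjoin_union_eq_adjoin_adjoin] at hh
        exact hh
      rw [Algebra.adjoin_singleton_eq_range_aeval] at h1
      obtain ⟨p, rfl⟩ := h1
      have h3 := chain_of_poly (A := (Algebra.adjoin P S).toSubring) (z := z) p
      exact h3.mono fun g hg => (ih' g).2 hg

end Poly

end Pool.Agent.H666R2.PolyGen
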