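import Pool.Agent.H306R2.RZ.Stubs2
import Pool.Agent.H384R2.RZ2_C2b

set_option autoImplicit false

/-! RZ task C4 (helper666): the value of `L(σ, χ_{8d})` through the theta function. -/

namespace Pool.Agent.H666R2.RZC4

open Finset Filter Topology MeasureTheory
open Pool.Agent.H306R2.RZ

noncomputable section

lemma js_abs_le (k : ℤ) (n : ℕ) : |js k n| ≤ 1 := by
  unfold js
  rcases jacobiSym.trichotomy k n with h | h | h <;> rw [h] <;> norm_num

lemma summable_th (d : ℕ) (hd : 0 < d) (y : ℝ) (hy : 0 < y) :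
    Summable (fun n : ℕ => js (8 * (d : ℤ)) (n + 1) *
      Real.exp (-(Real.pi * ((n : ℝ) + 1) ^ 2 * y / (8 * d)))) := by
  have hd' : (0 : ℝ) < d := by exact_mod_cast hd
  set c := Real.pi * y / (8 * d) with hc
  have hc0 : 0 < c := by have := Real.pi_pos; positivity
  have hg : Summable (fun n : ℕ => Real.exp (-c) ^ (n + 1)) :=
    (summable_nat_add_iff 1).2 (summable_geometric_of_lt_one (Real.exp_pos _).le
      (by rw [Real.exp_lt_one_iff]; linarith))
  refine Summable.of_norm_bounded hg (fun n => ?_)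
  rw [Real.norm_eq_abs, abs_mul, abs_of_pos (Real.exp_pos _), ← Real.exp_nat_mul]
  have h1 : |js (8 * (d : ℤ)) (n + 1)| * Real.exp (-(Real.pi * ((n : ℝ) + 1) ^ 2 * y / (8 * d))) ≤
      1 * Real.exp (-(Real.pi * ((n : ℝ) + 1) ^ 2 * y / (8 * d))) :=
    mul_le_mul_of_nonneg_right (js_abs_le _ _) (Real.exp_pos _).le
  refine h1.trans ?_
  rw [one_mul]
  apply Real.exp_le_exp.2
  have e : Real.pi * ((n : ℝ) + 1) ^ 2 * y / (8 * d) = ((n : ℝ) + 1) ^ 2 * c := by
    rw [hc]; ring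
  rw [e]
  push_cast
  have h2 : (1 : ℝ) ≤ (n : ℝ) + 1 := by
    have : (0 : ℝ) ≤ n := Nat.cast_nonneg n
    linarith
  nlinarith [mul_le_mul_of_nonneg_right h2 hc0.le,
    mul_nonneg (mul_nonneg (by linarith : (0 : ℝ) ≤ (n : ℝ) + 1) (by linarith : (0:ℝ) ≤ (n:ℝ) + 1 - 1))
      hc0.le]

lemma js_neg (d : ℕ) (hd : Odd d) : js (8 * (d : ℤ)) (1 + 4 * d) = -1 := by
  obtain ⟨k, hk⟩ := hd
  have hodd : Odd (1 + 4 * d) := ⟨2 * d, by ring⟩
  have h2 : jacobiSym 2 (1 + 4 * d) = -1 := by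
    rw [jacobiSym.at_two hodd]
    have : ((1 + 4 * d : ℕ) : ZMod 8) = 5 := by
      rw [hk]
      have : 1 + 4 * (2 * k + 1) = 8 * k + 5 := by ring
      rw [this]
      push_cast
      have h8 : (8 : ZMod 8) = 0 := by decide
      rw [h8]
      ring
    rw [this]
    decide
  have h3 : jacobiSym (d : ℤ) (1 + 4 * d) = 1 := by
    rw [← jacobiSym.quadratic_reciprocity_one_mod_four (a := 1 + 4 * d) (b := d) (by omega)
      ⟨k, hk⟩, jacobiSym.mod_left]
    have : (((1 + 4 * d : ℕ) : ℤ) % (d : ℤ)) = 1 % (d : ℤ) := by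
      push_cast
      rw [Int.add_mul_emod_self_right]
    rw [this, ← jacobiSym.mod_left, jacobiSym.one_left]
  unfold js
  have h8 : (8 * (d : ℤ)) = 2 ^ 3 * (d : ℤ) := by norm_num
  rw [h8, jacobiSym.mul_left, jacobiSym.pow_left, h2, h3]
  norm_num

lemma chi_ne_one (d : ℕ) (hd : Odd d) (χ : DirichletCharacter ℂ (8 * d))
    (hχ : ∀ n : ℕ, n ≠ 0 → χ (n : ZMod (8 * d)) = ((js (8 * (d : ℤ)) n : ℝ) : ℂ)) : χ ≠ 1 := by
  intro h
  have h1 := hχ (1 + 4 * d) (by omega)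
  rw [js_neg d hd, h] at h1
  by_cases hu : IsUnit (((1 + 4 * d : ℕ)) : ZMod (8 * d))
  · rw [MulChar.one_apply hu] at h1
    norm_num at h1
  · rw [MulChar.map_nonunit _ hu] at h1
    norm_num at h1

section

variable (d : ℕ) (hd : Odd d) (χ : DirichletCharacter ℂ (8 * d))
    (hχ : ∀ n : ℕ, n ≠ 0 → χ (n : ZMod (8 * d)) = ((js (8 * (d : ℤ)) n : ℝ) : ℂ))

include hd hχ

lemma mellin_th [NeZero (8 * d)] (s : ℂ) (hs : 1 < s.re) :
    mellin (fun t => ((th d t : ℝ) : ℂ)) (s / 2) =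
      Complex.Gammaℝ s * ((Real.sqrt (8 * d) : ℝ) : ℂ) ^ s * DirichletCharacter.LFunction χ s := by
  have hd0 : 0 < d := hd.pos
  have hd' : (0 : ℝ) < d := by exact_mod_cast hd0
  have hq : (0 : ℝ) < Real.sqrt (8 * d) := Real.sqrt_pos.2 (by positivity)
  have hqq : Real.sqrt (8 * d) ^ 2 = 8 * d := Real.sq_sqrt (by positivity)
  have hr : ∀ i : ℕ, 0 < ((i : ℝ) + 1) / Real.sqrt (8 * d) := fun i => by positivity
  have hF : ∀ t ∈ Set.Ioi (0 : ℝ), HasSum (fun i : ℕ =>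
      if ((i : ℝ) + 1) / Real.sqrt (8 * d) = 0 then (0 : ℂ) else
        χ ((i + 1 : ℕ) : ZMod (8 * d)) *
          ((Real.exp (-Real.pi * (((i : ℝ) + 1) / Real.sqrt (8 * d)) ^ 2 * t) : ℝ) : ℂ))
      ((th d t : ℝ) : ℂ) := by
    intro t ht
    have h2 := (summable_th d hd0 t ht).hasSum
    have h3 : HasSum (fun n : ℕ => (((js (8 * (d : ℤ)) (n + 1) *
      Real.exp (-(Real.pi * ((n : ℝ) + 1) ^ 2 * t / (8 * d)))) : ℝ) : ℂ)) ((th d t : ℝ) : ℂ) :=
      Complex.hasSum_ofReal.2 h2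
    refine h3.congr_fun ?_
    intro i
    rw [if_neg (hr i).ne', hχ (i + 1) (by omega), Complex.ofReal_mul]
    congr 3
    rw [div_pow, hqq]
    ring
  have hL := (DirichletCharacter.LSeriesSummable_of_one_lt_re χ hs)
  have hsum : Summable fun i : ℕ => ‖χ ((i + 1 : ℕ) : ZMod (8 * d))‖ /
      |((i : ℝ) + 1) / Real.sqrt (8 * d)| ^ s.re := by
    have hg : Summable (fun i : ℕ => Real.sqrt (8 * d) ^ s.re * (1 / (((i + 1 : ℕ) : ℝ)) ^ s.re)) :=
      ((summable_nat_add_iff 1).2 (Real.summable_one_div_nat_rpow.2 hs)).mul_left _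
    refine Summable.of_nonneg_of_le (fun i => by positivity) (fun i => ?_) hg
    rw [abs_of_pos (hr i), Real.div_rpow (by positivity) hq.le]
    have h4 : ‖χ ((i + 1 : ℕ) : ZMod (8 * d))‖ ≤ 1 := DirichletCharacter.norm_le_one χ _
    have h5 : (0 : ℝ) < ((i : ℝ) + 1) ^ s.re := by positivity
    have h6 : (0 : ℝ) < Real.sqrt (8 * d) ^ s.re := by positivity
    rw [div_div_eq_mul_div, div_le_iff₀ h5]
    push_cast
    have h7 : Real.sqrt (8 * d) ^ s.re * (1 / ((i : ℝ) + 1) ^ s.re) * ((i : ℝ) + 1) ^ s.re =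
        Real.sqrt (8 * d) ^ s.re := by
      field_simp
    rw [h7]
    push_cast at h4
    nlinarith
  have h1 := hasSum_mellin_pi_mul_sq (ι := ℕ) (a := fun n => χ ((n + 1 : ℕ) : ZMod (8 * d)))
    (r := fun n => ((n : ℝ) + 1) / Real.sqrt (8 * d)) (F := fun t => ((th d t : ℝ) : ℂ)) (s := s)
    (by linarith) hF hsum
  have h2 : HasSum (fun n : ℕ => LSeries.term (fun n => χ n) s n)
      (DirichletCharacter.LFunction χ s) := by
    rw [DirichletCharacter.LFunction_eq_LSeries χ hs]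
    exact hL.hasSum
  have h3 : HasSum (fun n : ℕ => LSeries.term (fun n => χ n) s (n + 1))
      (DirichletCharacter.LFunction χ s) := by
    have := (hasSum_nat_add_iff' (f := fun n : ℕ => LSeries.term (fun n => χ n) s n) 1).2 h2
    simpa using this
  have h4 := h3.mul_left (Complex.Gammaℝ s * ((Real.sqrt (8 * d) : ℝ) : ℂ) ^ s)
  refine h1.unique (h4.congr_fun ?_)
  intro i
  rw [LSeries.term_of_ne_zero (by omega), abs_of_pos (hr i)]
  have h5 : (((i + 1 : ℕ) : ℂ)) ^ s = ((((i : ℝ) + 1) / Real.sqrt (8 * d) : ℝ) : ℂ) ^ s *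
      ((Real.sqrt (8 * d) : ℝ) : ℂ) ^ s := by
    rw [← Complex.mul_cpow_ofReal_nonneg (hr i).le hq.le, ← Complex.ofReal_mul,
      div_mul_cancel₀ _ hq.ne']
    push_cast
    rfl
  have h6 : ((Real.sqrt (8 * d) : ℝ) : ℂ) ^ s ≠ 0 := by
    rw [Complex.cpow_def_of_ne_zero (by exact_mod_cast hq.ne')]
    exact Complex.exp_ne_zero _
  have h7 : ((((i : ℝ) + 1) / Real.sqrt (8 * d) : ℝ) : ℂ) ^ s ≠ 0 := by
    rw [Complex.cpow_def_of_ne_zero (by exact_mod_cast (hr i).ne')]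
    exact Complex.exp_ne_zero _
  rw [h5]
  field_simp

end

/-- `th` decays exponentially at infinity and is bounded near `0` -/
lemma th_top (d : ℕ) (hd : Odd d) : ∃ c : ℝ, 0 < c ∧
    (fun t => ((th d t : ℝ) : ℂ)) =O[atTop] fun t : ℝ => Real.exp (-c * t) := by
  obtain ⟨-, C, c, hC, hc, h⟩ := Pool.Agent.H384R2.RZ2_C2b.C2b d hd.pos.ne'
  refine ⟨c, hc, ?_⟩
  rw [Asymptotics.isBigO_iff]
  refine ⟨C, ?_⟩
  filter_upwards [eventually_ge_atTop (1 : ℝ)] with t ht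
  rw [Complex.norm_real, Real.norm_eq_abs, Real.norm_eq_abs, abs_of_pos (Real.exp_pos _)]
  have := h t ht
  rwa [neg_mul]

lemma th_bot (d : ℕ) (hd : Odd d) (hs : Squarefree d) :
    (fun t => ((th d t : ℝ) : ℂ)) =O[𝓝[>] 0] fun t : ℝ => t ^ (-(0 : ℝ)) := by
  obtain ⟨-, C, c, hC, hc, h⟩ := Pool.Agent.H384R2.RZ2_C2b.C2b d hd.pos.ne'
  rw [Asymptotics.isBigO_iff]
  refine ⟨C / c, ?_⟩
  have hmem : Set.Ioo (0 : ℝ) 1 ∈ 𝓝[>] (0 : ℝ) := Ioo_mem_nhdsGT one_pos
  filter_upwards [hmem] with t ht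
  rw [Complex.norm_real, Real.norm_eq_abs, neg_zero, Real.rpow_zero, norm_one, mul_one]
  set x := 1 / t with hx
  have hx1 : 1 ≤ x := by rw [hx, le_div_iff₀ ht.1]; linarith [ht.2]
  have h1 := Stubs2.C2 d hd hs x (by linarith)
  have h2 : 1 / x = t := by rw [hx, one_div_one_div]
  rw [h2] at h1
  rw [h1, abs_mul, abs_of_nonneg (Real.sqrt_nonneg _)]
  have h3 := h x hx1
  have h4 : Real.sqrt x ≤ x := by
    rw [Real.sqrt_le_left (by linarith)]
    nlinarith
  have h5 : c * x ≤ Real.exp (c * x) := by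
    have := Real.add_one_le_exp (c * x)
    linarith
  have h6 : x * Real.exp (-(c * x)) ≤ 1 / c := by
    rw [Real.exp_neg, le_div_iff₀ hc, ← div_eq_mul_inv, div_mul_eq_mul_div,
      div_le_one (Real.exp_pos _)]
    linarith
  calc Real.sqrt x * |th d x| ≤ x * (C * Real.exp (-(c * x))) :=
        mul_le_mul h4 h3 (abs_nonneg _) (by linarith)
    _ = C * (x * Real.exp (-(c * x))) := by ring
    _ ≤ C * (1 / c) := mul_le_mul_of_nonneg_left h6 hC.le
    _ = C / c := by ring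

lemma mellin_diff (d : ℕ) (hd : Odd d) (hs : Squarefree d) (s : ℂ) (h : 0 < s.re) :
    DifferentiableAt ℂ (mellin (fun t => ((th d t : ℝ) : ℂ))) s := by
  obtain ⟨c, hc, htop⟩ := th_top d hd
  refine mellin_differentiableAt_of_isBigO_rpow_exp hc ?_ htop (th_bot d hd hs) h
  apply ContinuousOn.locallyIntegrableOn _ measurableSet_Ioi
  exact Complex.continuous_ofReal.comp_continuousOn (Pool.Agent.H384R2.RZ2_C2b.C2b d hd.pos.ne').1

lemma Gammaℝ_diff (s : ℂ) (h : 0 < s.re) : DifferentiableAt ℂ Complex.Gammaℝ s := by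
  have h1 : DifferentiableAt ℂ (fun s => (Complex.Gammaℝ s)⁻¹) s :=
    Complex.differentiable_Gammaℝ_inv s
  have h2 := h1.inv (inv_ne_zero (Complex.Gammaℝ_ne_zero_of_re_pos h))
  have h3 : (fun s => (Complex.Gammaℝ s)⁻¹)⁻¹ = Complex.Gammaℝ := by
    funext z
    simp
  rwa [h3] at h2

theorem mellin_th_all (d : ℕ) (hd : Odd d) (hsq : Squarefree d) (χ : DirichletCharacter ℂ (8 * d))
    (hχ : ∀ n : ℕ, n ≠ 0 → χ (n : ZMod (8 * d)) = ((js (8 * (d : ℤ)) n : ℝ) : ℂ))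
    [NeZero (8 * d)] (s : ℂ) (hs : 0 < s.re) :
    mellin (fun t => ((th d t : ℝ) : ℂ)) (s / 2) =
      Complex.Gammaℝ s * ((Real.sqrt (8 * d) : ℝ) : ℂ) ^ s * DirichletCharacter.LFunction χ s := by
  have hd' : (0 : ℝ) < d := by exact_mod_cast hd.pos
  have hq : (0 : ℝ) < Real.sqrt (8 * d) := Real.sqrt_pos.2 (by positivity)
  have hqc : ((Real.sqrt (8 * d) : ℝ) : ℂ) ≠ 0 := by exact_mod_cast hq.ne'
  have hχ1 := chi_ne_one d hd χ hχ
  set U : Set ℂ := {s | 0 < s.re} with hU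
  have hUo : IsOpen U := isOpen_lt continuous_const Complex.continuous_re
  have hUc : Convex ℝ U := convex_halfSpace_re_gt 0
  have hf : DifferentiableOn ℂ (fun s => mellin (fun t => ((th d t : ℝ) : ℂ)) (s / 2)) U := by
    intro z hz
    have h1 : 0 < (z / 2).re := by
      have : (z / 2).re = z.re / 2 := by simp
      rw [this]
      exact half_pos hz
    have h2 := (mellin_diff d hd hsq (z / 2) h1).comp z
      ((differentiableAt_id (𝕜 := ℂ) (x := z)).div_const 2)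
    exact h2.differentiableWithinAt
  have hg : DifferentiableOn ℂ (fun s => Complex.Gammaℝ s * ((Real.sqrt (8 * d) : ℝ) : ℂ) ^ s *
      DirichletCharacter.LFunction χ s) U := by
    intro z hz
    refine DifferentiableAt.differentiableWithinAt ?_
    refine ((Gammaℝ_diff z hz).mul ?_).mul (DirichletCharacter.differentiable_LFunction hχ1 z)
    exact (differentiableAt_id (𝕜 := ℂ) (x := z)).const_cpow (Or.inl hqc)
  have hfa := hf.analyticOnNhd hUo
  have hga := hg.analyticOnNhd hUo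
  have h2U : (2 : ℂ) ∈ U := by simp [hU]
  have hev : (fun s => mellin (fun t => ((th d t : ℝ) : ℂ)) (s / 2)) =ᶠ[𝓝 2]
      (fun s => Complex.Gammaℝ s * ((Real.sqrt (8 * d) : ℝ) : ℂ) ^ s *
      DirichletCharacter.LFunction χ s) := by
    have hV : {s : ℂ | 1 < s.re} ∈ 𝓝 (2 : ℂ) :=
      (isOpen_lt continuous_const Complex.continuous_re).mem_nhds (by simp)
    filter_upwards [hV] with z hz
    exact mellin_th d hd χ hχ z hz
  exact hfa.eqOn_of_preconnected_of_eventuallyEq hga hUc.isPreconnected h2U hev hs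

theorem C4 (d : ℕ) (hd : Odd d) (hs : Squarefree d) (χ : DirichletCharacter ℂ (8 * d))
    (hχ : ∀ n : ℕ, n ≠ 0 → χ (n : ZMod (8 * d)) = ((js (8 * (d : ℤ)) n : ℝ) : ℂ))
    (σ : ℝ) (hσ : 0 < σ) :
    haveI : NeZero (8 * d) := ⟨by have := hd.pos; omega⟩
    DirichletCharacter.LFunction χ (σ : ℂ) = ((LLd d σ : ℝ) : ℂ) := by
  have : NeZero (8 * d) := ⟨by have := hd.pos; omega⟩
  have hd' : (0 : ℝ) < d := by exact_mod_cast hd.pos
  have hq8 : (0 : ℝ) < 8 * d := by positivity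
  have h1 := mellin_th_all d hd hs χ hχ (σ : ℂ) (by simpa using hσ)
  have h2 : mellin (fun t => ((th d t : ℝ) : ℂ)) ((σ : ℂ) / 2) =
      (((∫ y in Set.Ioi (0 : ℝ), th d y * y ^ (σ / 2 - 1)) : ℝ) : ℂ) := by
    unfold mellin
    rw [← integral_complex_ofReal]
    refine setIntegral_congr_fun measurableSet_Ioi (fun t ht => ?_)
    have ht' : (0 : ℝ) < t := ht
    simp only [smul_eq_mul]
    rw [Complex.ofReal_mul, mul_comm, Complex.ofReal_cpow ht'.le]
    push_cast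
    rfl
  have h3 : Complex.Gammaℝ (σ : ℂ) = ((gm σ : ℝ) : ℂ) := by
    rw [Complex.Gammaℝ_def]
    unfold gm
    rw [Complex.ofReal_mul, Complex.ofReal_cpow Real.pi_pos.le, ← Complex.Gamma_ofReal]
    push_cast
    congr 2
    ring
  have h4 : ((Real.sqrt (8 * d) : ℝ) : ℂ) ^ (σ : ℂ) = (((8 * (d : ℝ)) ^ (σ / 2) : ℝ) : ℂ) := by
    rw [← Complex.ofReal_cpow (Real.sqrt_nonneg _), Real.sqrt_eq_rpow, ← Real.rpow_mul hq8.le]
    congr 2
    ring
  rw [h2, h3, h4] at h1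
  have h5 : gm σ ≠ 0 := by
    unfold gm
    have := Real.Gamma_pos_of_pos (half_pos hσ)
    have := Real.pi_pos
    positivity
  have h6 : ((8 * (d : ℝ)) ^ (σ / 2)) ≠ 0 := by positivity
  have h7 : (((8 * (d : ℝ)) ^ (σ / 2) : ℝ) : ℂ) * ((gm σ : ℝ) : ℂ) ≠ 0 := by
    exact_mod_cast mul_ne_zero h6 h5
  show DirichletCharacter.LFunction χ (σ : ℂ) = _
  unfold LLd
  rw [Complex.ofReal_div, Complex.ofReal_mul, eq_div_iff h7, h1]
  ring

end

end Pool.Agent.H666R2.RZC4
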