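import Pool.Agent.H306R2.RZ.Stubs

set_option autoImplicit false

/-! Task E3 of project RZ. -/

namespace Pool.Agent.H666R2.RZE3

open Finset Filter Topology MeasureTheory
open Pool.Agent.H306R2.RZ

noncomputable section

theorem exists_dec (c : ℕ) (hc : c ≠ 0) (a : ℕ) (ha : a ≠ 0) : ∃ h m : ℕ, a = h * m ∧
    h.primeFactors ⊆ c.primeFactors ∧ m.Coprime c := by
  induction a using Nat.strong_induction_on with
  | _ a ih =>
    by_cases hac : a.Coprime c
    · exact ⟨1, a, (one_mul a).symm, by simp, hac⟩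
    · obtain ⟨p, hp, hpa, hpc⟩ := Nat.Prime.not_coprime_iff_dvd.1 hac
      obtain ⟨a', rfl⟩ := hpa
      have ha' : a' ≠ 0 := by rintro rfl; exact ha (mul_zero p)
      have hlt : a' < p * a' := by
        have := hp.two_le
        have h0 : 0 < a' := Nat.pos_of_ne_zero ha'
        nlinarith
      obtain ⟨h, m, e, h1, h2⟩ := ih a' hlt ha'
      have hh : h ≠ 0 := by rintro rfl; exact ha' (by rw [e, zero_mul])
      refine ⟨p * h, m, by rw [e]; ring, ?_, h2⟩
      rw [Nat.primeFactors_mul hp.ne_zero hh, hp.primeFactors]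
      refine Finset.union_subset ?_ h1
      rw [Finset.singleton_subset_iff, Nat.mem_primeFactors]
      exact ⟨hp, hpc, hc⟩

theorem coprime_of_smooth {c h m : ℕ} (hh : h.primeFactors ⊆ c.primeFactors) (h0 : h ≠ 0)
    (hm : m.Coprime c) : h.Coprime m := by
  rw [Nat.coprime_iff_gcd_eq_one]
  by_contra hne
  obtain ⟨p, hp, hpg⟩ := Nat.exists_prime_and_dvd hne
  have h1 : p ∣ h := hpg.trans (Nat.gcd_dvd_left _ _)
  have h2 : p ∣ m := hpg.trans (Nat.gcd_dvd_right _ _)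
  have h3 : p ∈ c.primeFactors := hh (Nat.mem_primeFactors.2 ⟨hp, h1, h0⟩)
  exact Nat.Prime.not_coprime_iff_dvd.2 ⟨p, hp, h2, (Nat.mem_primeFactors.1 h3).2.1⟩ hm

theorem sum_dec (c N : ℕ) (hc : c ≠ 0) (f : ℕ → ℝ) :
    ∑ a ∈ Icc 1 N, f a = ∑ h ∈ (Icc 1 N).filter (fun h => h.primeFactors ⊆ c.primeFactors),
      ∑ m ∈ (Icc 1 (N / h)).filter (fun m => m.Coprime c), f (h * m) := by
  rw [Finset.sum_sigma']
  symm
  refine Finset.sum_nbij (fun x => x.1 * x.2) ?_ ?_ ?_ ?_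
  · rintro ⟨h, m⟩ hx
    simp only [mem_sigma, mem_filter, mem_Icc] at hx ⊢
    obtain ⟨⟨⟨h1, h2⟩, h3⟩, ⟨h4, h5⟩, h6⟩ := hx
    refine ⟨Nat.mul_pos h1 h4, ?_⟩
    rw [Nat.le_div_iff_mul_le h1] at h5
    rw [mul_comm]
    exact h5
  · rintro ⟨h, m⟩ hx ⟨h', m'⟩ hy e
    simp only [coe_sigma, Set.mem_sigma_iff, mem_coe, mem_filter, mem_Icc] at hx hy e
    obtain ⟨⟨⟨h1, h2⟩, h3⟩, ⟨h4, h5⟩, h6⟩ := hx
    obtain ⟨⟨⟨g1, g2⟩, g3⟩, ⟨g4, g5⟩, g6⟩ := hy
    have c1 : h.Coprime m' := coprime_of_smooth h3 (by omega) g6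
    have c2 : h'.Coprime m := coprime_of_smooth g3 (by omega) h6
    have d1 : h ∣ h' := c1.dvd_of_dvd_mul_right (by rw [← e]; exact dvd_mul_right _ _)
    have d2 : h' ∣ h := c2.dvd_of_dvd_mul_right (by rw [e]; exact dvd_mul_right _ _)
    have hh : h = h' := Nat.dvd_antisymm d1 d2
    subst hh
    have hm : m = m' := Nat.eq_of_mul_eq_mul_left h1 e
    subst hm
    rfl
  · intro a ha
    rw [mem_coe, mem_Icc] at ha
    obtain ⟨h, m, e, h1, h2⟩ := exists_dec c hc a (by omega)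
    have hh : h ≠ 0 := by rintro rfl; rw [zero_mul] at e; omega
    have hm : m ≠ 0 := by rintro rfl; rw [mul_zero] at e; omega
    refine ⟨⟨h, m⟩, ?_, e.symm⟩
    simp only [coe_sigma, Set.mem_sigma_iff, mem_coe, mem_filter, mem_Icc]
    have hhpos : 0 < h := Nat.pos_of_ne_zero hh
    have hmpos : 0 < m := Nat.pos_of_ne_zero hm
    refine ⟨⟨⟨hhpos, ?_⟩, h1⟩, ⟨hmpos, ?_⟩, h2⟩
    · have : h ≤ a := by rw [e]; exact Nat.le_mul_of_pos_right h hmpos
      omega
    · rw [Nat.le_div_iff_mul_le hhpos, mul_comm, ← e]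
      exact ha.2
  · intro x _
    rfl

theorem odd_of_coprime_even {q n : ℕ} (hq : Even q) (h : n.Coprime q) : Odd n := by
  rw [← Nat.not_even_iff_odd]
  intro hn
  have h1 : 2 ∣ n.gcd q := Nat.dvd_gcd hn.two_dvd hq.two_dvd
  rw [Nat.coprime_iff_gcd_eq_one.1 h] at h1
  omega

theorem E3 (q : ℕ) (hq : Even q) (hq0 : q ≠ 0) (ε : ℝ) (hε : 0 < ε) : ∃ C : ℝ, 0 < C ∧
    ∀ (k : ℤ) (l N1 N2 : ℕ), ¬ IsSquare k → Odd l →
    |∑ a ∈ Icc 1 N1, ∑ b ∈ Icc 1 N2,
      if (a * b).Coprime q then Gk k (a * b * l) / Real.sqrt ((a : ℝ) * b) else 0| ≤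
      C * ((N1 : ℝ) * N2) ^ (1 / 2 + ε) * (k.natAbs : ℝ) ^ (1 / 2 + ε) * (l : ℝ) ^ (1 / 2 + ε) *
        Real.sqrt (k.natAbs.gcd l) := by
  have hε3 : 0 < ε / 3 := by positivity
  obtain ⟨C2, hC2, hE2⟩ := Stubs.E2 (ε / 3) hε3
  obtain ⟨C3, hC3, hE3⟩ := Stubs.E3a (ε / 3) hε3
  have hqpos : (0 : ℝ) < q := by exact_mod_cast Nat.pos_of_ne_zero hq0
  refine ⟨C2 * C3 * (q : ℝ) ^ (ε / 3), by positivity, ?_⟩
  intro k l N1 N2 hk hl
  have hk0 : k ≠ 0 := by rintro rfl; exact hk ⟨0, by ring⟩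
  have hkn : k.natAbs ≠ 0 := Int.natAbs_ne_zero.2 hk0
  have hl0 : l ≠ 0 := hl.pos.ne'
  rcases Nat.eq_zero_or_pos N1 with rfl | hN1
  · simp only [Nat.cast_zero, zero_mul]
    rw [Real.zero_rpow (by positivity)]
    simp
  rcases Nat.eq_zero_or_pos N2 with rfl | hN2
  · simp only [Nat.cast_zero, mul_zero]
    rw [Real.zero_rpow (by positivity)]
    simp
  set c := k.natAbs * l with hc
  have hc0 : c ≠ 0 := Nat.mul_ne_zero hkn hl0
  set f : ℕ → ℕ → ℝ := fun a b =>
    if (a * b).Coprime q then Gk k (a * b * l) / Real.sqrt ((a : ℝ) * b) else 0 with hf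
  set S1 := (Icc 1 N1).filter (fun h => h.primeFactors ⊆ c.primeFactors) with hS1
  set S2 := (Icc 1 N2).filter (fun h => h.primeFactors ⊆ c.primeFactors) with hS2
  set In : ℕ → ℕ → ℝ := fun h h' =>
    ∑ m ∈ (Icc 1 (N1 / h)).filter (fun m => m.Coprime c),
      ∑ m' ∈ (Icc 1 (N2 / h')).filter (fun m => m.Coprime c), f (h * m) (h' * m') with hIn
  have hexp : ∑ a ∈ Icc 1 N1, ∑ b ∈ Icc 1 N2, f a b = ∑ h ∈ S1, ∑ h' ∈ S2, In h h' := by
    rw [sum_dec c N1 hc0]
    refine Finset.sum_congr rfl fun h _ => ?_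
    have e1 : ∀ m ∈ (Icc 1 (N1 / h)).filter (fun m => m.Coprime c),
        ∑ b ∈ Icc 1 N2, f (h * m) b = ∑ h' ∈ S2,
          ∑ m' ∈ (Icc 1 (N2 / h')).filter (fun m => m.Coprime c), f (h * m) (h' * m') :=
      fun m _ => sum_dec c N2 hc0 _
    rw [Finset.sum_congr rfl e1, Finset.sum_comm]
  -- the inner sums
  set K : ℝ := (k.natAbs : ℝ) with hK
  have hK1 : 1 ≤ K := by rw [hK]; exact_mod_cast Nat.one_le_iff_ne_zero.2 hkn
  have hl1 : (1 : ℝ) ≤ l := by exact_mod_cast Nat.one_le_iff_ne_zero.2 hl0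
  have hN1' : (1 : ℝ) ≤ N1 := by exact_mod_cast hN1
  have hN2' : (1 : ℝ) ≤ N2 := by exact_mod_cast hN2
  set Q : ℝ := C2 * ((N1 : ℝ) * N2) ^ (1 / 2 + ε / 3) * K ^ (1 / 2 + ε / 3) *
    ((q * c : ℕ) : ℝ) ^ (ε / 3) with hQ
  have hQ0 : 0 ≤ Q := by positivity
  have hinner : ∀ h ∈ S1, ∀ h' ∈ S2, |In h h'| ≤
      (if Odd h ∧ Odd h' ∧ h.primeFactors ⊆ c.primeFactors ∧ h'.primeFactors ⊆ c.primeFactors then
        |Gk k (h * h' * l)| / ((h : ℝ) * h') else 0) * Q := by
    intro h hh h' hh'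
    rw [hS1, mem_filter, mem_Icc] at hh
    rw [hS2, mem_filter, mem_Icc] at hh'
    obtain ⟨⟨hh1, hh2⟩, hh3⟩ := hh
    obtain ⟨⟨hh1', hh2'⟩, hh3'⟩ := hh'
    by_cases hcop : (h * h').Coprime q
    swap
    · have h0 : In h h' = 0 := by
        rw [hIn]
        refine Finset.sum_eq_zero fun m _ => Finset.sum_eq_zero fun m' _ => ?_
        rw [hf]
        simp only
        rw [if_neg]
        intro h1
        apply hcop
        refine Nat.Coprime.coprime_dvd_left ?_ h1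
        exact ⟨m * m', by ring⟩
      rw [h0, abs_zero]
      refine mul_nonneg ?_ hQ0
      split_ifs
      · positivity
      · exact le_rfl
    have hhodd : Odd h := odd_of_coprime_even hq (Nat.Coprime.coprime_dvd_left (dvd_mul_right h h') hcop)
    have hhodd' : Odd h' := odd_of_coprime_even hq (Nat.Coprime.coprime_dvd_left (dvd_mul_left h' h) hcop)
    rw [if_pos ⟨hhodd, hhodd', hh3, hh3'⟩]
    have hhpos : (0 : ℝ) < h := by exact_mod_cast hh1
    have hhpos' : (0 : ℝ) < h' := by exact_mod_cast hh1'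
    -- the values of `f`
    have hval : ∀ m ∈ (Icc 1 (N1 / h)).filter (fun m => m.Coprime c),
        ∀ m' ∈ (Icc 1 (N2 / h')).filter (fun m => m.Coprime c), f (h * m) (h' * m') =
          Gk k (h * h' * l) / Real.sqrt ((h : ℝ) * h') *
            (if Squarefree (m * m') ∧ (m * m').Coprime (q * c) then js k (m * m') else 0) := by
      intro m hm m' hm'
      rw [mem_filter, mem_Icc] at hm hm'
      have hmc : (m * m').Coprime c := Nat.Coprime.mul_left hm.2 hm'.2
      have hmpos : (0 : ℝ) < m := by exact_mod_cast hm.1.1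
      have hmpos' : (0 : ℝ) < m' := by exact_mod_cast hm'.1.1
      have e1 : h * m * (h' * m') = (h * h') * (m * m') := by ring
      rw [hf]
      simp only
      rw [e1]
      by_cases hmq : (m * m').Coprime q
      · have hmm : Odd (m * m') := odd_of_coprime_even hq hmq
        have hcop2 : ((h * h') * (m * m')).Coprime q := Nat.Coprime.mul_left hcop hmq
        rw [if_pos hcop2]
        have e2 : (h * h') * (m * m') * l = (h * h' * l) * (m * m') := by ring
        have hprime : (h * h' * l).primeFactors ⊆ c.primeFactors := by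
          rw [Nat.primeFactors_mul (Nat.mul_ne_zero (by omega) (by omega)) hl0,
            Nat.primeFactors_mul (by omega) (by omega)]
          refine Finset.union_subset (Finset.union_subset hh3 hh3') ?_
          exact Nat.primeFactors_mono (dvd_mul_left l k.natAbs) hc0
        have hco : (h * h' * l).Coprime (m * m') :=
          coprime_of_smooth hprime (Nat.mul_ne_zero (Nat.mul_ne_zero (by omega) (by omega)) hl0) hmc
        have hmk : (m * m').Coprime k.natAbs :=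
          Nat.Coprime.coprime_dvd_right (dvd_mul_right k.natAbs l) hmc
        rw [e2, Stubs.P2 k _ _ ((hhodd.mul hhodd').mul hl) hmm hco, Stubs.P4b k _ hmm hmk]
        have hsq : Real.sqrt (((h * m : ℕ) : ℝ) * ((h' * m' : ℕ) : ℝ)) =
            Real.sqrt ((h : ℝ) * h') * Real.sqrt ((m * m' : ℕ) : ℝ) := by
          rw [← Real.sqrt_mul (by positivity)]
          congr 1
          push_cast
          ring
        rw [hsq]
        have hs1 : Real.sqrt ((h : ℝ) * h') ≠ 0 := (Real.sqrt_pos.2 (mul_pos hhpos hhpos')).ne'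
        have hs2 : Real.sqrt ((m * m' : ℕ) : ℝ) ≠ 0 := by
          rw [Real.sqrt_ne_zero']
          push_cast
          exact mul_pos hmpos hmpos'
        by_cases hsf : Squarefree (m * m')
        · rw [if_pos hsf, if_pos ⟨hsf, Nat.Coprime.mul_right hmq hmc⟩]
          field_simp
        · rw [if_neg hsf, if_neg (fun h => hsf h.1)]
          simp
      · rw [if_neg, if_neg, mul_zero]
        · rintro ⟨_, h2⟩
          exact hmq (Nat.Coprime.coprime_dvd_right (dvd_mul_right q c) h2)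
        · intro h2
          exact hmq (Nat.Coprime.coprime_dvd_left (dvd_mul_left _ _) h2)
    have hfull : In h h' = Gk k (h * h' * l) / Real.sqrt ((h : ℝ) * h') *
        ∑ m ∈ Icc 1 (N1 / h), ∑ m' ∈ Icc 1 (N2 / h'),
          (if Squarefree (m * m') ∧ (m * m').Coprime (q * c) then js k (m * m') else 0) := by
      rw [hIn]
      simp only
      rw [Finset.sum_congr rfl fun m hm => Finset.sum_congr rfl fun m' hm' => hval m hm m' hm']
      rw [Finset.mul_sum]
      simp only [← Finset.mul_sum]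
      congr 1
      rw [Finset.sum_filter]
      refine Finset.sum_congr rfl fun m _ => ?_
      by_cases hmc : m.Coprime c
      · rw [if_pos hmc, Finset.sum_filter]
        refine Finset.sum_congr rfl fun m' _ => ?_
        by_cases hmc' : m'.Coprime c
        · rw [if_pos hmc']
        · rw [if_neg hmc', if_neg]
          rintro ⟨_, h2⟩
          apply hmc'
          exact Nat.Coprime.coprime_dvd_left (dvd_mul_left m' m)
            (Nat.Coprime.coprime_dvd_right (dvd_mul_left c q) h2)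
      · rw [if_neg hmc]
        symm
        refine Finset.sum_eq_zero fun m' _ => ?_
        rw [if_neg]
        rintro ⟨_, h2⟩
        apply hmc
        exact Nat.Coprime.coprime_dvd_left (dvd_mul_right m m')
          (Nat.Coprime.coprime_dvd_right (dvd_mul_left c q) h2)
    have hB := hE2 k (q * c) (N1 / h) (N2 / h') hk (hq.mul_right c) (Nat.mul_ne_zero hq0 hc0)
    rw [hfull, abs_mul]
    have hsq0 : 0 < Real.sqrt ((h : ℝ) * h') := Real.sqrt_pos.2 (mul_pos hhpos hhpos')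
    have hsqsq : Real.sqrt ((h : ℝ) * h') * Real.sqrt ((h : ℝ) * h') = (h : ℝ) * h' :=
      Real.mul_self_sqrt (mul_pos hhpos hhpos').le
    have hrp : (((N1 / h : ℕ) : ℝ) * ((N2 / h' : ℕ) : ℝ)) ^ (1 / 2 + ε / 3) ≤
        ((N1 : ℝ) * N2) ^ (1 / 2 + ε / 3) / Real.sqrt ((h : ℝ) * h') := by
      have h1 : ((N1 / h : ℕ) : ℝ) * ((N2 / h' : ℕ) : ℝ) ≤ ((N1 : ℝ) * N2) / ((h : ℝ) * h') := by
        rw [mul_div_mul_comm]
        exact mul_le_mul Nat.cast_div_le Nat.cast_div_le (Nat.cast_nonneg _) (by positivity)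
      calc (((N1 / h : ℕ) : ℝ) * ((N2 / h' : ℕ) : ℝ)) ^ (1 / 2 + ε / 3)
          ≤ (((N1 : ℝ) * N2) / ((h : ℝ) * h')) ^ (1 / 2 + ε / 3) :=
            Real.rpow_le_rpow (by positivity) h1 (by positivity)
        _ = ((N1 : ℝ) * N2) ^ (1 / 2 + ε / 3) / ((h : ℝ) * h') ^ (1 / 2 + ε / 3) :=
            Real.div_rpow (by positivity) (by positivity) _
        _ ≤ ((N1 : ℝ) * N2) ^ (1 / 2 + ε / 3) / Real.sqrt ((h : ℝ) * h') := by
            refine div_le_div_of_nonneg_left (by positivity) hsq0 ?_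
            rw [Real.sqrt_eq_rpow]
            refine Real.rpow_le_rpow_of_exponent_le ?_ (by linarith)
            have g1 : (1 : ℝ) ≤ h := by exact_mod_cast hh1
            have g2 : (1 : ℝ) ≤ h' := by exact_mod_cast hh1'
            nlinarith
    calc |Gk k (h * h' * l) / Real.sqrt ((h : ℝ) * h')| * _
        ≤ |Gk k (h * h' * l) / Real.sqrt ((h : ℝ) * h')| *
          (C2 * (((N1 / h : ℕ) : ℝ) * ((N2 / h' : ℕ) : ℝ)) ^ (1 / 2 + ε / 3) *
            K ^ (1 / 2 + ε / 3) * ((q * c : ℕ) : ℝ) ^ (ε / 3)) :=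
          mul_le_mul_of_nonneg_left hB (abs_nonneg _)
      _ ≤ |Gk k (h * h' * l) / Real.sqrt ((h : ℝ) * h')| *
          (C2 * (((N1 : ℝ) * N2) ^ (1 / 2 + ε / 3) / Real.sqrt ((h : ℝ) * h')) *
            K ^ (1 / 2 + ε / 3) * ((q * c : ℕ) : ℝ) ^ (ε / 3)) := by
          refine mul_le_mul_of_nonneg_left ?_ (abs_nonneg _)
          refine mul_le_mul_of_nonneg_right (mul_le_mul_of_nonneg_right
            (mul_le_mul_of_nonneg_left hrp hC2.le) (by positivity)) (by positivity)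
      _ = |Gk k (h * h' * l)| / ((h : ℝ) * h') * Q := by
          rw [abs_div, abs_of_pos hsq0, hQ]
          set s : ℝ := Real.sqrt ((h : ℝ) * h') with hs
          have e1 : |Gk k (h * h' * l)| / ((h : ℝ) * h') = |Gk k (h * h' * l)| / (s * s) := by
            rw [hsqsq]
          rw [e1]
          have hs0 : s ≠ 0 := hsq0.ne'
          generalize |Gk k (h * h' * l)| = G
          generalize ((N1 : ℝ) * N2) ^ (1 / 2 + ε / 3) = A
          generalize K ^ (1 / 2 + ε / 3) = B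
          generalize ((q * c : ℕ) : ℝ) ^ (ε / 3) = D
          field_simp
  -- summing up
  have hsum1 : |∑ a ∈ Icc 1 N1, ∑ b ∈ Icc 1 N2, f a b| ≤
      (∑ h ∈ Icc 1 (max N1 N2), ∑ h' ∈ Icc 1 (max N1 N2),
        (if Odd h ∧ Odd h' ∧ h.primeFactors ⊆ c.primeFactors ∧ h'.primeFactors ⊆ c.primeFactors
          then |Gk k (h * h' * l)| / ((h : ℝ) * h') else 0)) * Q := by
    rw [hexp]
    have hnn : ∀ h h' : ℕ, 0 ≤ (if Odd h ∧ Odd h' ∧ h.primeFactors ⊆ c.primeFactors ∧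
        h'.primeFactors ⊆ c.primeFactors then |Gk k (h * h' * l)| / ((h : ℝ) * h') else 0) := by
      intro h h'
      split_ifs
      · positivity
      · exact le_rfl
    calc |∑ h ∈ S1, ∑ h' ∈ S2, In h h'| ≤ ∑ h ∈ S1, |∑ h' ∈ S2, In h h'| :=
          Finset.abs_sum_le_sum_abs _ _
      _ ≤ ∑ h ∈ S1, ∑ h' ∈ S2, |In h h'| :=
          Finset.sum_le_sum fun h _ => Finset.abs_sum_le_sum_abs _ _
      _ ≤ ∑ h ∈ S1, ∑ h' ∈ S2, (if Odd h ∧ Odd h' ∧ h.primeFactors ⊆ c.primeFactors ∧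
            h'.primeFactors ⊆ c.primeFactors then |Gk k (h * h' * l)| / ((h : ℝ) * h') else 0) * Q :=
          Finset.sum_le_sum fun h hh => Finset.sum_le_sum fun h' hh' => hinner h hh h' hh'
      _ = (∑ h ∈ S1, ∑ h' ∈ S2, (if Odd h ∧ Odd h' ∧ h.primeFactors ⊆ c.primeFactors ∧
            h'.primeFactors ⊆ c.primeFactors then |Gk k (h * h' * l)| / ((h : ℝ) * h') else 0)) *
            Q := by
          rw [Finset.sum_mul]
          exact Finset.sum_congr rfl fun h _ => (Finset.sum_mul _ _ _).symm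
      _ ≤ _ := by
          refine mul_le_mul_of_nonneg_right ?_ hQ0
          have hs1 : S1 ⊆ Icc 1 (max N1 N2) := by
            intro x hx
            rw [hS1, mem_filter, mem_Icc] at hx
            rw [mem_Icc]
            exact ⟨hx.1.1, hx.1.2.trans (le_max_left _ _)⟩
          have hs2 : S2 ⊆ Icc 1 (max N1 N2) := by
            intro x hx
            rw [hS2, mem_filter, mem_Icc] at hx
            rw [mem_Icc]
            exact ⟨hx.1.1, hx.1.2.trans (le_max_right _ _)⟩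
          calc _ ≤ ∑ h ∈ S1, ∑ h' ∈ Icc 1 (max N1 N2), (if Odd h ∧ Odd h' ∧
                h.primeFactors ⊆ c.primeFactors ∧ h'.primeFactors ⊆ c.primeFactors then
                |Gk k (h * h' * l)| / ((h : ℝ) * h') else 0) :=
                Finset.sum_le_sum fun h _ =>
                  Finset.sum_le_sum_of_subset_of_nonneg hs2 fun h' _ _ => hnn h h'
            _ ≤ _ := Finset.sum_le_sum_of_subset_of_nonneg hs1 fun h _ _ =>
                  Finset.sum_nonneg fun h' _ => hnn h h'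
  have hE := hE3 k l (max N1 N2) hk0 hl
  refine hsum1.trans ((mul_le_mul_of_nonneg_right hE hQ0).trans ?_)
  -- comparison of the powers
  have hNN : (1 : ℝ) ≤ (N1 : ℝ) * N2 := by nlinarith
  have p1 : ((N1 : ℝ) * N2) ^ (1 / 2 + ε / 3) ≤ ((N1 : ℝ) * N2) ^ (1 / 2 + ε) :=
    Real.rpow_le_rpow_of_exponent_le hNN (by linarith)
  have p2 : ((q * c : ℕ) : ℝ) ^ (ε / 3) = (q : ℝ) ^ (ε / 3) * (K ^ (ε / 3) * (l : ℝ) ^ (ε / 3)) := by
    rw [hc]
    push_cast
    rw [Real.mul_rpow hqpos.le (by positivity), Real.mul_rpow (by positivity) (by positivity)]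
  have p3 : K ^ (ε / 3) * (K ^ (1 / 2 + ε / 3) * K ^ (ε / 3)) = K ^ (1 / 2 + ε) := by
    rw [← Real.rpow_add (by linarith), ← Real.rpow_add (by linarith)]
    congr 1
    ring
  have p4 : (l : ℝ) ^ (1 / 2 + ε / 3) * (l : ℝ) ^ (ε / 3) ≤ (l : ℝ) ^ (1 / 2 + ε) := by
    rw [← Real.rpow_add (by linarith)]
    exact Real.rpow_le_rpow_of_exponent_le hl1 (by linarith)
  have hg0 : 0 ≤ Real.sqrt (k.natAbs.gcd l) := Real.sqrt_nonneg _
  calc C3 * K ^ (ε / 3) * (l : ℝ) ^ (1 / 2 + ε / 3) * Real.sqrt (k.natAbs.gcd l) * Q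
      = C2 * C3 * (q : ℝ) ^ (ε / 3) * ((N1 : ℝ) * N2) ^ (1 / 2 + ε / 3) *
        (K ^ (ε / 3) * (K ^ (1 / 2 + ε / 3) * K ^ (ε / 3))) *
        ((l : ℝ) ^ (1 / 2 + ε / 3) * (l : ℝ) ^ (ε / 3)) * Real.sqrt (k.natAbs.gcd l) := by
        rw [hQ, p2]; ring
    _ ≤ C2 * C3 * (q : ℝ) ^ (ε / 3) * ((N1 : ℝ) * N2) ^ (1 / 2 + ε) * K ^ (1 / 2 + ε) *
        (l : ℝ) ^ (1 / 2 + ε) * Real.sqrt (k.natAbs.gcd l) := by
        rw [p3]
        gcongr

end

end Pool.Agent.H666R2.RZE3
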